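import Pool.Agent.Helper86.LZ.BR2
import Pool.Agent.Helper33.C2.Pre

/-!
# Packet MT-BR4 (project C2): zero rules from domination
-/

set_option autoImplicit false

open Finset

namespace Pool.Agent.Helper82.LZ

open Pool.Agent.Helper99.LZ
open Pool.Agent.Helper52.C2 (Tg Fam Dir pre)
open Pool.Agent.Helper86.LZ (PQ_apply H_apply)

theorem pre_mono {f : LaurentPolynomial ℝ} (hf : ∀ i, 0 ≤ f.coeff i) {k l : ℤ} (h : k ≤ l) :
    pre f k ≤ pre f l := by
  induction l, h using Int.le_induction with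
  | base => exact le_rfl
  | succ n _ ih =>
    have h1 := Pool.Agent.Helper33.C2.pre_sub_step f (n + 1)
    rw [add_sub_cancel_right] at h1
    linarith [hf (n + 1)]

/-- entries of nonnegative level are nonnegative -/
theorem ent_nonneg {S : Tg} (hS : S.Nonneg) {p q : ℤ} (h : q ≤ p) :
    0 ≤ pre S.L p - pre S.R q := by
  have h1 := Pool.Agent.Helper33.C2.coeff_F S p
  have h2 := pre_mono hS.R h
  linarith [hS.F p]

theorem ent_le {S : Tg} (hS : S.Nonneg) {p q q' : ℤ} (h : q' ≤ q) :
    pre S.L p - pre S.R q ≤ pre S.L p - pre S.R q' := by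
  linarith [pre_mono hS.R h]

theorem h_eq (S : Tg) {n p q : ℤ} (h : p - n = q) : S.h n p = pre S.L p - pre S.R q := by
  unfold Tg.h
  rw [h]

theorem bil_one {ι : Type} [Fintype ι] (M : ι → ι → ℝ) (x : ι)
    (h : ∀ a b, ¬ (a = x ∧ b = x) → M a b = 0) (u v : ι → ℝ) :
    bil M u v = M x x * u x * v x := by
  show ∑ a, ∑ b, u a * M a b * v b = _
  rw [Finset.sum_eq_single x]
  · rw [Finset.sum_eq_single x]
    · ring
    · intro b _ hb
      rw [h x b fun h1 => hb h1.2, mul_zero, zero_mul]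
    · intro h1
      exact absurd (Finset.mem_univ _) h1
  · intro a _ ha
    refine Finset.sum_eq_zero fun b _ => ?_
    rw [h a b fun h1 => ha h1.1, mul_zero, zero_mul]
  · intro h1
    exact absurd (Finset.mem_univ _) h1

variable {E : Type} [Fintype E] [DecidableEq E] {A : Fam E}

/-- the rule for the form `D` -/
theorem D_zero (hA : A.Good) {p q : ℤ} (hpq : q - 2 ≤ p)
    (h1 : pre A.S.L (p + 1) - pre A.S.R (q - 1) = 0) (h2 : pre A.S.L p - pre A.S.R (q - 2) = 0)
    (u v : Dir E → ℝ) :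
    (famCtx A).D p q u v = (pre A.S.L (p + 2) - pre A.S.R q) * u .X * v .X := by
  obtain ⟨n, hn⟩ := Int.eq_ofNat_of_zero_le (show 0 ≤ p - q + 2 by omega)
  have e2 : A.S.h n (p + 2) = pre A.S.L (p + 2) - pre A.S.R q := h_eq _ (by omega)
  have e1 : A.S.h n (p + 1) = 0 := by rw [← h1]; exact h_eq _ (by omega)
  have e0 : A.S.h n p = 0 := by rw [← h2]; exact h_eq _ (by omega)
  have k1 : ∀ e, (A.Se e).h n (p + 1) = 0 := fun e => by
    have h := hA.dom e n (p + 1)
    rw [e1] at h
    exact le_antisymm h.2.1 h.1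
  have k0 : ∀ e, (A.Se e).h n p = 0 := fun e => by
    have h := hA.dom e n p
    rw [e0] at h
    exact le_antisymm h.2.1 h.1
  have k2 : ∀ e e', A.G e e' n p = 0 := fun e e' => by
    have h := hA.domG e e' n p
    rw [e1] at h
    exact le_antisymm h.2 h.1
  rw [← e2, ← hn]
  refine bil_one (famEntry A p q) .X ?_ u v
  intro a b hab
  rcases a with _ | _ | e
  · rcases b with _ | _ | e'
    · exact absurd ⟨rfl, rfl⟩ hab
    · show A.S.h (p - q + 2) (p + 1) = 0
      rw [hn]; exact e1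
    · show (A.Se e').h (p - q + 2) (p + 1) = 0
      rw [hn]; exact k1 _
  · rcases b with _ | _ | e'
    · show A.S.h (p - q + 2) (p + 1) = 0
      rw [hn]; exact e1
    · show A.S.h (p - q + 2) p = 0
      rw [hn]; exact e0
    · show (A.Se e').h (p - q + 2) p = 0
      rw [hn]; exact k0 _
  · rcases b with _ | _ | e'
    · show (A.Se e).h (p - q + 2) (p + 1) = 0
      rw [hn]; exact k1 _
    · show (A.Se e).h (p - q + 2) p = 0
      rw [hn]; exact k0 _
    · show A.G e e' (p - q + 2).toNat p = 0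
      rw [hn, Int.toNat_natCast]; exact k2 _ _

/-- the rule for the functionals in the direction `W` -/
theorem PQ_zero (hA : A.Good) {p q : ℤ} (hpq : q - 1 ≤ p)
    (h1 : pre A.S.L (p + 1) - pre A.S.R (q - 1) = 0) (h2 : pre A.S.L p - pre A.S.R (q - 2) = 0)
    (v : Dir E → ℝ) : (famCtx A).P p v - (famCtx A).Q q v = 0 := by
  obtain ⟨n, hn⟩ := Int.eq_ofNat_of_zero_le (show 0 ≤ p - q + 1 by omega)
  have a1 : pre A.S.L (p + 1) - pre A.S.R q = 0 := by
    refine le_antisymm ?_ (ent_nonneg hA.nonneg (by omega))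
    rw [← h1]
    exact ent_le hA.nonneg (by omega)
  have a0 : pre A.S.L p - pre A.S.R (q - 1) = 0 := by
    refine le_antisymm ?_ (ent_nonneg hA.nonneg (by omega))
    rw [← h2]
    exact ent_le hA.nonneg (by omega)
  rw [PQ_apply]
  refine Finset.sum_eq_zero fun a _ => ?_
  have : cP A p a - cQ A q a = 0 := by
    rcases a with _ | _ | e
    · exact a1
    · exact a0
    · show pre (A.Se e).L p - pre (A.Se e).R (q - 1) = 0
      have h := hA.dom e n p
      rw [h_eq (A.Se e) (show p - (n : ℤ) = q - 1 by omega),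
        h_eq A.S (show p - (n : ℤ) = q - 1 by omega), a0] at h
      exact le_antisymm h.2.1 h.1
  rw [this, zero_mul]

theorem g_zero (hA : A.Good) {p q : ℤ} (hpq : q - 1 ≤ p)
    (h2 : pre A.S.L p - pre A.S.R (q - 2) = 0) : (famCtx A).g p q = 0 := by
  have a0 : pre A.S.L p - pre A.S.R q ≤ 0 := by
    rw [← h2]
    exact ent_le hA.nonneg (by omega)
  unfold Ctx.g
  split_ifs with h
  · rw [H_apply]
    exact le_antisymm a0 (ent_nonneg hA.nonneg h)
  · have e : q - 1 = p := by omega
    show max (A.S.h (-1) (q - 1)) 0 = 0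
    rw [h_eq A.S (show q - 1 - (-1) = q by omega), e]
    exact max_eq_right a0

/-- BR4. -/
theorem brd : StmtBRD := by
  intro E _ _ A hA
  refine ⟨fun q h1 h2 u v => ?_, fun p q hpq h1 h2 u v => ?_⟩
  · unfold Pr.F at h1 h2 ⊢
    rw [H_apply] at h1 h2 ⊢
    have e1 : q - 2 + 1 = q - 1 := by omega
    have e2 : q - 2 + 2 = q := by omega
    have := D_zero hA (p := q - 2) (q := q) le_rfl (by rw [e1]; exact h1) h2 u v
    rw [this, e2]
  · rw [H_apply] at h1 h2 ⊢
    have e : (famCtx A).full p q u v = (famCtx A).D p q u.1 v.1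
        + u.2 * ((famCtx A).P p v.1 - (famCtx A).Q q v.1)
        + v.2 * ((famCtx A).P p u.1 - (famCtx A).Q q u.1) + u.2 * v.2 * (famCtx A).g p q := rfl
    rw [e, PQ_zero hA hpq h1 h2, PQ_zero hA hpq h1 h2, g_zero hA hpq h2,
      D_zero hA (by omega) h1 h2]
    ring

end Pool.Agent.Helper82.LZ
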